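import Pool.Agent.SumProd339.MaxOne

set_option autoImplicit false

/-!
# Maximal systems with one essential addition equation
-/

namespace Pool.Agent.Results.MP_dafae9_al.OneAddition

open Pool.Agent.SumProd339

/-- `S ⊆ E_n` is consistent and maximal: it has a solution and no strictly larger system has one. -/
def MaximalSystem {n : ℕ} (S : Set (Eqn n)) : Prop :=
  (∃ z, IsSol S z) ∧ ∀ S' : Set (Eqn n), S ⊂ S' → ¬ ∃ z, IsSol S' z

/-- Let `S ⊆ E_n` be a maximal system and let `x` be a solution of `S`.  Suppose that all addition
equations of `S`, with at most one exception, are doublings `x_i + x_i = x_k` or have a zero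
coordinate at `x`.  Then `|x_i| ≤ 2^(2^(n-2))`. -/
theorem result (n : ℕ) (S : Set (Eqn n)) (hS : MaximalSystem S)
    (x : Fin n → ℂ) (hx : IsSol S x) (hone : OneAddition S x) (i : Fin n) :
    ‖x i‖ ≤ (2 : ℝ) ^ ((2 : ℝ) ^ ((n : ℝ) - 2)) := by
  by_cases hone' : ∃ i₁, Eqn.one i₁ ∈ S
  · obtain ⟨i₁, h1⟩ := hone'
    have h := oneAddition_bound_maximal S x hx hS.2 hone {i₁} (by simp [h1]) i
    have e : (n : ℝ) - (({i₁} : Finset (Fin n)).card : ℝ) - 1 = (n : ℝ) - 2 := by
      rw [Finset.card_singleton]
      push_cast
      ring
    rw [e] at h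
    exact h
  · -- no unit equation: the zero vector is a solution, and maximality forces `x = 0`
    push Not at hone'
    have hmem : Eqn.add i i i ∈ S := by
      by_contra hnot
      apply hS.2 (insert (Eqn.add i i i) S) (Set.ssubset_insert hnot)
      refine ⟨fun _ => 0, ?_⟩
      intro e he
      rcases he with rfl | he
      · simp [Eqn.Holds]
      · cases e with
        | one j => exact absurd he (hone' j)
        | add j k l => simp [Eqn.Holds]
        | mul j k l => simp [Eqn.Holds]
    have h1 : x i + x i = x i := hx _ hmem
    have h2 : x i = 0 := by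
      have := congrArg (fun z => z - x i) h1
      simpa using this
    rw [h2, norm_zero]
    positivity

end Pool.Agent.Results.MP_dafae9_al.OneAddition
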